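import Pool.Agent.Helper38.IA.St

/-!
# Project IA (MP_953b28_co): module M2 (edge-disjoint perfect matchings)
-/

set_option autoImplicit false

namespace Pool.Agent.Helper10.IA38

open Finset Pool.Agent.Helper93.IA Pool.Agent.Helper38.IA

/-- the unused edges -/
private def Gr {X Y : Type} [DecidableEq X] [DecidableEq Y] (G : Finset (X × Y)) (P : Finset X)
    {R : ℕ} (N : Fin R → X → Y) : Finset (X × Y) :=
  G.filter fun e => ∀ s, ¬ (e.1 ∈ P ∧ N s e.1 = e.2)

private theorem mem_Gr {X Y : Type} [DecidableEq X] [DecidableEq Y] {G : Finset (X × Y)}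
    {P : Finset X} {R : ℕ} {N : Fin R → X → Y} {x : X} {y : Y} :
    (x, y) ∈ Gr G P N ↔ (x, y) ∈ G ∧ ∀ s, ¬ (x ∈ P ∧ N s x = y) := by
  simp [Gr]

private theorem left_card {X Y : Type} [DecidableEq X] [DecidableEq Y] (G : Finset (X × Y))
    (P : Finset X) (Q : Finset Y) (r R : ℕ) (N : Fin R → X → Y) (x : X)
    (h : (Q.filter fun y => (x, y) ∉ G).card ≤ r) :
    (Q.filter fun y => (x, y) ∉ Gr G P N).card ≤ r + R := by
  have hsub : (Q.filter fun y => (x, y) ∉ Gr G P N) ⊆
      (Q.filter fun y => (x, y) ∉ G) ∪ univ.image fun s => N s x := by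
    intro y hy
    rw [mem_filter, mem_Gr] at hy
    obtain ⟨hyQ, hy⟩ := hy
    rw [mem_union, mem_filter, mem_image]
    by_cases hG : (x, y) ∈ G
    · right
      push Not at hy
      obtain ⟨s, -, hs⟩ := hy hG
      exact ⟨s, mem_univ _, hs⟩
    · exact Or.inl ⟨hyQ, hG⟩
  refine (card_le_card hsub).trans ((card_union_le _ _).trans ?_)
  refine Nat.add_le_add h (card_image_le.trans ?_)
  simp

private theorem right_card {X Y : Type} [DecidableEq X] [DecidableEq Y] (G : Finset (X × Y))
    (P : Finset X) (r R : ℕ) (N : Fin R → X → Y) (y : Y)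
    (hN : ∀ s, Set.InjOn (N s) P)
    (h : (P.filter fun x => (x, y) ∉ G).card ≤ r) :
    (P.filter fun x => (x, y) ∉ Gr G P N).card ≤ r + R := by
  have hsub : (P.filter fun x => (x, y) ∉ Gr G P N) ⊆
      (P.filter fun x => (x, y) ∉ G) ∪ univ.biUnion fun s => P.filter fun x => N s x = y := by
    intro x hx
    rw [mem_filter, mem_Gr] at hx
    obtain ⟨hxP, hx⟩ := hx
    rw [mem_union, mem_filter, mem_biUnion]
    by_cases hG : (x, y) ∈ G
    · right
      push Not at hx
      obtain ⟨s, -, hs⟩ := hx hG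
      exact ⟨s, mem_univ _, mem_filter.2 ⟨hxP, hs⟩⟩
    · exact Or.inl ⟨hxP, hG⟩
  refine (card_le_card hsub).trans ((card_union_le _ _).trans ?_)
  refine Nat.add_le_add h (card_biUnion_le.trans ?_)
  have h1 : ∀ s ∈ (univ : Finset (Fin R)), (P.filter fun x => N s x = y).card ≤ 1 := by
    intro s _
    refine card_le_one.2 ?_
    intro a ha b hb
    rw [mem_filter] at ha hb
    exact hN s ha.1 hb.1 (ha.2.trans hb.2.symm)
  refine (sum_le_sum h1).trans ?_
  simp

/-- `R` edge-disjoint perfect matchings. -/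
theorem hM2 : StM1 → StM2 := by
  intro hM1 X Y _ _ _ _ G P Q r R hP hPQ
  induction R with
  | zero =>
    intro _ _ _
    exact ⟨fun s => s.elim0, fun s => s.elim0, fun s => s.elim0, fun s => s.elim0⟩
  | succ R ih =>
    intro hR h1 h2
    obtain ⟨N, hN1, hN2, hN3⟩ := ih (by omega) h1 h2
    obtain ⟨M, hM, hMG⟩ := hM1 X Y (Gr G P N) P Q (r + R) hP hPQ (by omega)
      (fun x hx => left_card G P Q r R N x (h1 x hx))
      (fun y hy => right_card G P r R N y (fun s => (hN1 s).injOn) (h2 y hy))
    have hne : ∀ s, ∀ x ∈ P, M x ≠ N s x := by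
      intro s x hx e
      exact (mem_Gr.1 (hMG x hx)).2 s ⟨hx, e.symm⟩
    refine ⟨Fin.cons M N, ?_, ?_, ?_⟩
    · intro s
      refine Fin.cases ?_ (fun i => ?_) s
      · rw [Fin.cons_zero]; exact hM
      · rw [Fin.cons_succ]; exact hN1 i
    · intro s
      refine Fin.cases ?_ (fun i => ?_) s
      · rw [Fin.cons_zero]; exact fun x hx => (mem_Gr.1 (hMG x hx)).1
      · rw [Fin.cons_succ]; exact hN2 i
    · intro s s'
      refine Fin.cases ?_ (fun i => ?_) s
      · refine Fin.cases ?_ (fun j => ?_) s'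
        · intro h; exact absurd rfl h
        · intro _
          rw [Fin.cons_zero, Fin.cons_succ]
          exact hne j
      · refine Fin.cases ?_ (fun j => ?_) s'
        · intro _
          rw [Fin.cons_zero, Fin.cons_succ]
          exact fun x hx => (hne i x hx).symm
        · intro h
          rw [Fin.cons_succ, Fin.cons_succ]
          exact hN3 i j (fun e => h (by rw [e]))

end Pool.Agent.Helper10.IA38
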